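import Pool.Agent.H.MP_7783b9_co.N.Tight

/-!
# The necessary condition for arbitrary part sizes
-/

set_option autoImplicit false

open Finset

namespace Pool.MP7783b9

theorem template_map_gen {V : Type*} [Fintype V] [DecidableEq V] (E : Finset (Finset V))
    (h3 : ∀ f ∈ E, f.card = 3) (N : Fin 3 → ℕ) (M : ℕ) (hM : N 0 + N 1 + N 2 = M)
    (hA : Arrows E M) :
    ∃ f : V → Fin 3, (∀ i, (Finset.univ.filter fun v => f v = i).card ≤ N i) ∧
      ∀ e ∈ E, EdgeOk f e := by
  classical
  obtain ⟨g, hg⟩ : ∃ g : Fin M → Fin 3, ∀ v, g v =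
      (if (v : ℕ) < N 0 then 0 else if (v : ℕ) < N 0 + N 1 then 1 else 2) := ⟨_, fun _ => rfl⟩
  have hoff : ∃ o : Fin 3 → ℕ, ∀ (i : Fin 3) (v : Fin M), g v = i →
      o i ≤ (v : ℕ) ∧ (v : ℕ) < o i + N i := by
    refine ⟨![0, N 0, N 0 + N 1], fun i v hv => ?_⟩
    rw [hg] at hv
    have hv2 := v.2
    split_ifs at hv with h1 h2
    · subst hv
      simp
      exact h1
    · subst hv
      simp
      omega
    · subst hv
      simp
      omega
  obtain ⟨o, ho⟩ := hoff
  rcases hA (fun f => decide (∃ a b d : Fin M, f = {a, b, d} ∧ redT (g a) (g b) (g d) = true)) with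
    ⟨φ, hφ⟩ | ⟨φ, hφ⟩
  · refine ⟨fun v => g (φ v), ?_, ?_⟩
    · intro i
      have h1 : (Finset.univ.filter fun v => g (φ v) = i).card ≤ (Finset.range (N i)).card := by
        refine Finset.card_le_card_of_injOn (fun v => (φ v : ℕ) - o i) ?_ ?_
        · intro v hv
          rw [Finset.mem_coe, Finset.mem_filter] at hv
          have h2 := ho i (φ v) hv.2
          rw [Finset.mem_coe, Finset.mem_range]
          show (φ v : ℕ) - o i < N i
          omega
        · intro v hv w hw hvw
          rw [Finset.mem_coe, Finset.mem_filter] at hv hw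
          have h2 := ho i (φ v) hv.2
          have h3 := ho i (φ w) hw.2
          have h4 : (φ v : ℕ) - o i = (φ w : ℕ) - o i := hvw
          have h5 : (φ v : ℕ) = (φ w : ℕ) := by omega
          exact φ.injective (Fin.ext h5)
      rw [Finset.card_range] at h1
      exact h1
    · intro e he
      have h1 := hφ e he
      simp only [decide_eq_true_eq] at h1
      obtain ⟨a, b, d, h2, h3⟩ := h1
      unfold redT at h3
      simp only [Bool.or_eq_true, Bool.and_eq_true, decide_eq_true_eq] at h3
      rcases h3 with (h3 | h3) | h3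
      · exact Templ_edge φ g e a b d h2 (g a) rfl h3.1.symm h3.2
      · refine Templ_edge φ g e a d b ?_ (g a) rfl h3.1.symm h3.2
        rw [h2, Finset.pair_comm b d]
      · refine Templ_edge φ g e b d a ?_ (g b) rfl h3.1.symm h3.2
        rw [h2, Finset.insert_comm a b, Finset.pair_comm a d]
  · exfalso
    obtain ⟨i, j, k, -, -, -, hF, hr⟩ := redT_fano (fun x => g (φ x))
    have h1 := hφ _ hF
    simp only [decide_eq_false_iff_not] at h1
    refine h1 ⟨φ i, φ j, φ k, ?_, hr⟩
    simp only [Finset.map_insert, Finset.map_singleton]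

/-- the necessary condition for Fano-goodness -/
theorem necessary_gen {V : Type*} [Fintype V] [DecidableEq V] (E : Finset (Finset V))
    (h3 : ∀ f ∈ E, f.card = 3) (hg : FanoGood E) :
    (∀ N : Fin 3 → ℕ, N 0 + N 1 + N 2 = 2 * (Fintype.card V - 1) + 1 →
      ∃ f : V → Fin 3, (∀ i, (Finset.univ.filter fun v => f v = i).card ≤ N i) ∧
        ∀ e ∈ E, EdgeOk f e) ∧
      (TightConn E → ∃ I : Finset V, StrongIndep E I ∧ (Fintype.card V + 1) / 3 ≤ I.card) := by
  have hA : Arrows E (2 * (Fintype.card V - 1) + 1) := by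
    have hr : sInf {N | Arrows E N} = 2 * (Fintype.card V - 1) + 1 := hg
    have hne : {N | Arrows E N}.Nonempty := by
      by_contra hcon
      rw [Set.not_nonempty_iff_eq_empty] at hcon
      rw [hcon, Nat.sInf_empty] at hr
      omega
    have := Nat.sInf_mem hne
    rw [hr] at this
    exact this
  exact ⟨fun N hN => template_map_gen E h3 N _ hN hA, (necessary E h3 hg).2⟩

end Pool.MP7783b9
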