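import Pool.Agent.H.MP_7783b9_co.Core

/-!
# The cyclic template
-/

set_option autoImplicit false

open Finset

namespace Pool.MP7783b9

/-- the red types of the cyclic template: `i i i` and `i - 1, i, i` -/
def redT (a b c : Fin 3) : Bool :=
  (a = b && (c = a || c = a + 2)) || (a = c && (b = a || b = a + 2)) ||
    (b = c && (a = b || a = b + 2))

theorem Templ_all : ∀ a0 a1 a2 a3 a4 a5 a6 : Fin 3,
    (redT a0 a1 a3 || (redT a1 a2 a4 || (redT a2 a3 a5 || (redT a3 a4 a6 || (redT a4 a5 a0 ||
      (redT a5 a6 a1 || redT a6 a0 a2)))))) = true := by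
  decide +kernel

/-- every colouring of the points of the Fano plane with three colours has a line of a red
type -/
theorem redT_fano (χ : Fin 7 → Fin 3) :
    ∃ i j k : Fin 7, i ≠ j ∧ i ≠ k ∧ j ≠ k ∧ ({i, j, k} : Finset (Fin 7)) ∈ fano ∧
      redT (χ i) (χ j) (χ k) = true := by
  have h := Templ_all (χ 0) (χ 1) (χ 2) (χ 3) (χ 4) (χ 5) (χ 6)
  simp only [Bool.or_eq_true] at h
  rcases h with h | h | h | h | h | h | h
  · exact ⟨0, 1, 3, by decide, by decide, by decide, by decide, h⟩
  · exact ⟨1, 2, 4, by decide, by decide, by decide, by decide, h⟩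
  · exact ⟨2, 3, 5, by decide, by decide, by decide, by decide, h⟩
  · exact ⟨3, 4, 6, by decide, by decide, by decide, by decide, h⟩
  · exact ⟨4, 5, 0, by decide, by decide, by decide, by decide, h⟩
  · exact ⟨5, 6, 1, by decide, by decide, by decide, by decide, h⟩
  · exact ⟨6, 0, 2, by decide, by decide, by decide, by decide, h⟩

/-- the type of an edge which is red in the template -/
def EdgeOk {V : Type*} [DecidableEq V] (f : V → Fin 3) (e : Finset V) : Prop :=
  ∃ i : Fin 3, (∀ v ∈ e, f v = i ∨ f v = i + 2) ∧ (e.filter fun v => f v ≠ i).card ≤ 1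

theorem Templ_edge {V α : Type*} [DecidableEq V] [DecidableEq α] (φ : V ↪ α) (g : α → Fin 3)
    (e : Finset V) (a b d : α) (he : e.map φ = {a, b, d}) (i : Fin 3) (ha : g a = i)
    (hb : g b = i) (hd : g d = i ∨ g d = i + 2) : EdgeOk (fun v => g (φ v)) e := by
  refine ⟨i, ?_, ?_⟩
  · intro v hv
    have h1 : φ v ∈ e.map φ := Finset.mem_map_of_mem φ hv
    rw [he, Finset.mem_insert, Finset.mem_insert, Finset.mem_singleton] at h1
    rcases h1 with h1 | h1 | h1
    · left
      simp only [h1, ha]
    · left
      simp only [h1, hb]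
    · simp only [h1]
      exact hd
  · rw [Finset.card_le_one]
    have key : ∀ v ∈ e.filter (fun v => g (φ v) ≠ i), φ v = d := by
      intro v hv
      rw [Finset.mem_filter] at hv
      have h1 : φ v ∈ e.map φ := Finset.mem_map_of_mem φ hv.1
      rw [he, Finset.mem_insert, Finset.mem_insert, Finset.mem_singleton] at h1
      rcases h1 with h1 | h1 | h1
      · exact absurd (by rw [h1]; exact ha) hv.2
      · exact absurd (by rw [h1]; exact hb) hv.2
      · exact h1
    intro v hv w hw
    exact φ.injective ((key v hv).trans (key w hw).symm)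

/-- If `H` is contained in every 2-colouring of `2 n - 1` points without blue Fano plane, it maps
to the cyclic template. -/
theorem template_map {V : Type*} [Fintype V] [DecidableEq V] (E : Finset (Finset V))
    (h3 : ∀ f ∈ E, f.card = 3) (N : ℕ) (hA : Arrows E N) :
    ∃ f : V → Fin 3, (∀ i, (Finset.univ.filter fun v => f v = i).card ≤ (N + 2) / 3) ∧
      ∀ e ∈ E, EdgeOk f e := by
  classical
  obtain ⟨g, hg⟩ : ∃ g : Fin N → Fin 3, ∀ v, g v = ⟨(v : ℕ) % 3, Nat.mod_lt _ (by norm_num)⟩ :=
    ⟨_, fun _ => rfl⟩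
  rcases hA (fun f => decide (∃ a b d : Fin N, f = {a, b, d} ∧ redT (g a) (g b) (g d) = true)) with
    ⟨φ, hφ⟩ | ⟨φ, hφ⟩
  · refine ⟨fun v => g (φ v), ?_, ?_⟩
    · intro i
      have h1 : (Finset.univ.filter fun v => g (φ v) = i).card ≤
          (Finset.range ((N + 2) / 3)).card := by
        refine Finset.card_le_card_of_injOn (fun v => (φ v : ℕ) / 3) ?_ ?_
        · intro v _
          have h2 := (φ v).2
          rw [Finset.mem_coe, Finset.mem_range]
          show (φ v : ℕ) / 3 < (N + 2) / 3
          omega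
        · intro v hv w hw hvw
          rw [Finset.mem_coe, Finset.mem_filter, hg] at hv hw
          have h2 : (φ v : ℕ) % 3 = (φ w : ℕ) % 3 := by
            have h3 := congrArg Fin.val (hv.2.trans hw.2.symm)
            exact h3
          have h4 : (φ v : ℕ) / 3 = (φ w : ℕ) / 3 := hvw
          have h5 : (φ v : ℕ) = (φ w : ℕ) := by omega
          exact φ.injective (Fin.ext h5)
      rw [Finset.card_range] at h1
      exact h1
    · intro e he
      have h1 := hφ e he
      simp only [decide_eq_true_eq] at h1
      obtain ⟨a, b, d, h2, h3⟩ := h1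
      unfold redT at h3
      simp only [Bool.or_eq_true, Bool.and_eq_true, decide_eq_true_eq] at h3
      rcases h3 with (h3 | h3) | h3
      · exact Templ_edge φ g e a b d h2 (g a) rfl h3.1.symm h3.2
      · refine Templ_edge φ g e a d b ?_ (g a) rfl h3.1.symm h3.2
        rw [h2, Finset.pair_comm b d]
      · refine Templ_edge φ g e b d a ?_ (g b) rfl h3.1.symm h3.2
        rw [h2, Finset.insert_comm a b, Finset.pair_comm a d]
  · exfalso
    obtain ⟨i, j, k, -, -, -, hF, hr⟩ := redT_fano (fun x => g (φ x))
    have h1 := hφ _ hF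
    simp only [decide_eq_false_iff_not] at h1
    refine h1 ⟨φ i, φ j, φ k, ?_, hr⟩
    simp only [Finset.map_insert, Finset.map_singleton]

end Pool.MP7783b9
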