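import Pool.Agent.H.MP_7783b9_co.N.Templ

/-!
# Tightly connected 3-graphs
-/

set_option autoImplicit false

open Finset

namespace Pool.MP7783b9

/-- `H = (V, E)` is tightly connected: every vertex lies in an edge, and any two edges are joined
by a sequence of edges in which consecutive edges share (at least) two vertices. -/
def TightConn {V : Type*} [DecidableEq V] (E : Finset (Finset V)) : Prop :=
  (∀ v : V, ∃ e ∈ E, v ∈ e) ∧ ∀ e ∈ E, ∀ e' ∈ E,
    Relation.ReflTransGen (fun a b => a ∈ E ∧ b ∈ E ∧ 2 ≤ (a ∩ b).card) e e'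

/-- a strongly independent set: it meets every edge in at most one vertex -/
def StrongIndep {V : Type*} [DecidableEq V] (E : Finset (Finset V)) (I : Finset V) : Prop :=
  ∀ e ∈ E, (e ∩ I).card ≤ 1

/-- the label `i` fits the edge `e` -/
def Tight_Ok {V : Type*} [DecidableEq V] (f : V → Fin 3) (e : Finset V) (i : Fin 3) : Prop :=
  (∀ v ∈ e, f v = i ∨ f v = i + 2) ∧ (e.filter fun v => f v ≠ i).card ≤ 1

theorem Tight_fin : ∀ i i' a b : Fin 3, (a = i ∨ b = i) → (a = i' ∨ b = i') →
    (a = i ∨ a = i + 2) → (b = i ∨ b = i + 2) → (a = i' ∨ a = i' + 2) →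
    (b = i' ∨ b = i' + 2) → i = i' := by
  decide

theorem Tight_one {V : Type*} [DecidableEq V] {f : V → Fin 3} {e : Finset V} {i : Fin 3}
    (h : Tight_Ok f e i) {p q : V} (hp : p ∈ e) (hq : q ∈ e) (hpq : p ≠ q) :
    f p = i ∨ f q = i := by
  by_contra hcon
  rw [not_or] at hcon
  have h2 := Finset.card_le_one.1 h.2 p (Finset.mem_filter.2 ⟨hp, hcon.1⟩) q
    (Finset.mem_filter.2 ⟨hq, hcon.2⟩)
  exact hpq h2

theorem Tight_label {V : Type*} [DecidableEq V] {f : V → Fin 3} {e e' : Finset V}
    {i i' : Fin 3} (h : Tight_Ok f e i) (h' : Tight_Ok f e' i') (hc : 2 ≤ (e ∩ e').card) :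
    i = i' := by
  obtain ⟨p, hp, q, hq, hpq⟩ := Finset.one_lt_card.1 hc
  rw [Finset.mem_inter] at hp hq
  exact Tight_fin i i' (f p) (f q) (Tight_one h hp.1 hq.1 hpq) (Tight_one h' hp.2 hq.2 hpq)
    (h.1 p hp.1) (h.1 q hq.1) (h'.1 p hp.2) (h'.1 q hq.2)

/-- in a tightly connected 3-graph a map to the template uses one base part only -/
theorem tight_indep {V : Type*} [Fintype V] [DecidableEq V] (E : Finset (Finset V))
    (h3 : ∀ f ∈ E, f.card = 3) (hne : Nonempty V) (ht : TightConn E) (f : V → Fin 3)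
    (hf : ∀ e ∈ E, EdgeOk f e) :
    ∃ i : Fin 3, StrongIndep E (Finset.univ.filter fun v => f v ≠ i) := by
  obtain ⟨v₀⟩ := hne
  obtain ⟨e₀, he₀, -⟩ := ht.1 v₀
  obtain ⟨i, hi⟩ := hf e₀ he₀
  refine ⟨i, ?_⟩
  have key : ∀ e ∈ E, Tight_Ok f e i := by
    intro e he
    have hch := ht.2 e₀ he₀ e he
    clear he
    induction hch with
    | refl => exact hi
    | tail _ hbc ih =>
      obtain ⟨i', hi'⟩ := hf _ hbc.2.1
      have hii : i = i' := Tight_label ih hi' hbc.2.2
      rw [hii]
      exact hi'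
  intro e he
  have h1 := (key e he).2
  have h2 : e ∩ (Finset.univ.filter fun v => f v ≠ i) = e.filter fun v => f v ≠ i := by
    ext v
    simp
  rw [h2]
  exact h1

/-- the necessary condition for Fano-goodness -/
theorem necessary {V : Type*} [Fintype V] [DecidableEq V] (E : Finset (Finset V))
    (h3 : ∀ f ∈ E, f.card = 3) (hg : FanoGood E) :
    (∃ f : V → Fin 3, (∀ i, (Finset.univ.filter fun v => f v = i).card ≤
        (2 * Fintype.card V + 1) / 3) ∧ ∀ e ∈ E, EdgeOk f e) ∧
      (TightConn E → ∃ I : Finset V, StrongIndep E I ∧ (Fintype.card V + 1) / 3 ≤ I.card) := by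
  have hA : Arrows E (2 * (Fintype.card V - 1) + 1) := by
    have hr : sInf {N | Arrows E N} = 2 * (Fintype.card V - 1) + 1 := hg
    have hne : {N | Arrows E N}.Nonempty := by
      by_contra hcon
      rw [Set.not_nonempty_iff_eq_empty] at hcon
      rw [hcon, Nat.sInf_empty] at hr
      omega
    have := Nat.sInf_mem hne
    rw [hr] at this
    exact this
  obtain ⟨f, hf1, hf2⟩ := template_map E h3 _ hA
  have hcard : ∀ i, (Finset.univ.filter fun v => f v = i).card ≤
      (2 * Fintype.card V + 1) / 3 := by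
    intro i
    rcases Nat.eq_zero_or_pos (Fintype.card V) with h0 | h0
    · have h1 := Finset.card_le_univ (Finset.univ.filter fun v => f v = i)
      omega
    · have h1 := hf1 i
      have h2 : 2 * (Fintype.card V - 1) + 1 + 2 = 2 * Fintype.card V + 1 := by omega
      rw [h2] at h1
      exact h1
  refine ⟨⟨f, hcard, hf2⟩, ?_⟩
  intro ht
  rcases isEmpty_or_nonempty V with hV | hV
  · refine ⟨∅, fun e _ => by simp, ?_⟩
    have : Fintype.card V = 0 := Fintype.card_eq_zero
    rw [this]
    simp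
  · obtain ⟨i, hi⟩ := tight_indep E h3 hV ht f hf2
    refine ⟨_, hi, ?_⟩
    have h1 := Finset.card_filter_add_card_filter_not (s := (Finset.univ : Finset V))
      (fun v => f v = i)
    rw [Finset.card_univ] at h1
    have h2 := hcard i
    have h3 : (Finset.univ.filter fun v => f v ≠ i).card =
        (Finset.univ.filter fun v => ¬ f v = i).card := rfl
    rw [h3]
    omega

end Pool.MP7783b9
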